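import Pool.Agent.Helper16.SD.GoalsS
import Pool.Agent.Helper26.SL.GA3
import Pool.Agent.Helper42.SL.GA4

/-! # Project SD, packet U_DIMC: the dimension over `ℂ` of the `χ`-part of the units -/

set_option autoImplicit false

namespace Pool.Agent.Helper25.SD.U_DIMC

open NumberField Module TensorProduct
open Pool.Agent.Helper51.SigLeo Pool.Agent.Helper16.SD
open Pool.Agent.Helper17.SL (archLog Phi tchi Phi_tmul)

theorem card_places (K : Type) [Field K] [NumberField K] [IsTotallyComplex K] {d : ℕ}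
    (hK : finrank ℚ K = 2 * d) : Fintype.card (InfinitePlace K) = d := by
  classical
  have h1 := InfinitePlace.card_add_two_mul_card_eq_rank K
  have h2 := InfinitePlace.card_eq_nrRealPlaces_add_nrComplexPlaces K
  have h3 : InfinitePlace.nrRealPlaces K = 0 :=
    nrRealPlaces_eq_zero_iff.2 inferInstance
  rw [hK, h3] at h1
  rw [h3] at h2
  omega

theorem Phi_id {M : Type} [AddCommGroup M] (ℓ : M →+ ℂ) (x : ℂ ⊗[ℤ] M) :
    Phi (RingHom.id ℂ) ℓ x = extHom ℓ x := by
  induction x using TensorProduct.induction_on with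
  | zero => rw [map_zero, map_zero]
  | tmul a m => rw [Phi_tmul, extHom_tmul]; rfl
  | add x y hx hy => rw [map_add, map_add, hx, hy]

theorem extHom_extEnd {M : Type} [AddCommGroup M] (ℓ : M →+ ℂ) (f : M →+ M) (x : ℂ ⊗[ℤ] M) :
    extHom ℓ (extEnd f x) = extHom (ℓ.comp f) x := by
  induction x using TensorProduct.induction_on with
  | zero => rw [map_zero, map_zero, map_zero]
  | tmul a m => rw [extEnd_tmul, extHom_tmul, extHom_tmul]; rfl
  | add x y hx hy => rw [map_add, map_add, map_add, hx, hy]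

section

variable {K F : Type} [Field K] [Field F] [NumberField F] [Algebra K F]

theorem archLog_comp (ρ : F →+* ℂ) (g : F ≃ₐ[K] F) :
    (archLog ρ).comp (unitsHom g) = archLog (ρ.comp (g : F →+* F)) := rfl

variable [Fintype (F ≃ₐ[K] F)]

theorem extHom_tchi (χ : (F ≃ₐ[K] F) →* ℂˣ) (ρ : F →+* ℂ) (u : Additive (𝓞 F)ˣ) :
    extHom (archLog ρ) (tchi χ u) = alog (RingHom.id ℂ) χ ρ u := by
  unfold tchi alog
  rw [map_sum]
  refine Finset.sum_congr rfl fun g _ ↦ ?_
  rw [extHom_tmul]
  rfl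

theorem tchi_mem (χ : (F ≃ₐ[K] F) →* ℂˣ) (u : Additive (𝓞 F)ˣ) : tchi χ u ∈ gPart χ := by
  intro h
  unfold tchi
  rw [map_sum, Finset.smul_sum]
  refine Fintype.sum_equiv (Equiv.mulLeft h) _ _ fun g ↦ ?_
  have e1 : χ g⁻¹ = χ h * χ (h * g)⁻¹ := by
    rw [map_inv, map_inv, map_mul, mul_inv, mul_inv_cancel_left]
  rw [Equiv.coe_mulLeft, extEnd_tmul, e1, Units.val_mul, TensorProduct.smul_tmul', smul_eq_mul,
    unitsHom_mul]
  rfl

end

theorem t (h : U_ARC) : U_DIMC := by
  intro K F _ _ _ _ _ _ _ χ hχ d hK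
  classical
  have : Fintype (F ≃ₐ[K] F) := Fintype.ofFinite _
  have hcard := card_places K hK
  -- the embeddings
  let e : Fin d ≃ InfinitePlace K := (finCongr hcard.symm).trans (Fintype.equivFin _).symm
  have hext : ∀ κ : K →+* ℂ, ∃ ρ : F →+* ℂ, ρ.comp (algebraMap K F) = κ := by
    intro κ
    let _ : Algebra K ℂ := κ.toAlgebra
    have : Algebra.IsAlgebraic K F := Algebra.IsAlgebraic.of_finite K F
    let φ : F →ₐ[K] ℂ := IsAlgClosed.lift
    exact ⟨φ.toRingHom, by ext x; exact φ.commutes x⟩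
  choose lft hlft using hext
  let ρ : Fin d → (F →+* ℂ) := fun j ↦ lft (e j).embedding
  have hρ : ∀ j, InfinitePlace.mk ((ρ j).comp (algebraMap K F)) = e j := by
    intro j
    show InfinitePlace.mk ((lft (e j).embedding).comp (algebraMap K F)) = e j
    rw [hlft, InfinitePlace.mk_embedding]
  have hinj : ∀ i j, InfinitePlace.mk ((ρ i).comp (algebraMap K F)) =
      InfinitePlace.mk ((ρ j).comp (algebraMap K F)) → i = j := by
    intro i j hij
    rw [hρ, hρ] at hij
    exact e.injective hij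
  obtain ⟨u, hu⟩ := h K F ℂ (RingHom.id ℂ) χ hχ d ρ hinj
  let L : gPart χ →ₗ[ℂ] (Fin d → ℂ) :=
    LinearMap.pi fun j ↦ (extHom (archLog (ρ j))).comp (gPart χ).subtype
  have hL : ∀ v j, L v j = extHom (archLog (ρ j)) (v : ℂ ⊗[ℤ] Additive (𝓞 F)ˣ) := fun v j ↦ rfl
  -- injectivity
  have hLi : Function.Injective L := by
    rw [injective_iff_map_eq_zero]
    rintro ⟨v, hv⟩ h0
    have h1 : ∀ j, extHom (archLog (ρ j)) v = 0 := fun j ↦ congrFun h0 j
    -- moving by the group
    have hc : ∀ (ρ' : F →+* ℂ) (g : F ≃ₐ[K] F), extHom (archLog ρ') v = 0 →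
        extHom (archLog (ρ'.comp (g : F →+* F))) v = 0 := by
      intro ρ' g h2
      have h3 := hv g
      rw [← archLog_comp, ← extHom_extEnd, h3, map_smul, h2, smul_zero]
    have hall : ∀ ρ' : F →+* ℂ, extHom (archLog ρ') v = 0 := by
      intro ρ'
      have h2 : InfinitePlace.mk ((ρ (e.symm (InfinitePlace.mk (ρ'.comp (algebraMap K F))))).comp
          (algebraMap K F)) = InfinitePlace.mk (ρ'.comp (algebraMap K F)) := by
        rw [hρ, Equiv.apply_symm_apply]
      set j := e.symm (InfinitePlace.mk (ρ'.comp (algebraMap K F))) with hj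
      rcases InfinitePlace.mk_eq_iff.1 h2 with h3 | h3
      · obtain ⟨σ, hσ⟩ := ComplexEmbedding.exists_comp_symm_eq_of_comp_eq (ρ j) ρ' h3
        have h4 := hc (ρ j) σ.symm (h1 j)
        have h5 : (ρ j).comp ((σ.symm : F ≃ₐ[K] F) : F →+* F) = ρ' := hσ
        rwa [h5] at h4
      · have h3' : (ComplexEmbedding.conjugate (ρ j)).comp (algebraMap K F) =
            ρ'.comp (algebraMap K F) := h3
        obtain ⟨σ, hσ⟩ := ComplexEmbedding.exists_comp_symm_eq_of_comp_eq _ ρ' h3'
        have h4 := hc (ComplexEmbedding.conjugate (ρ j)) σ.symm (by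
          rw [Pool.Agent.Helper17.SL.PkGA4.archLog_conj]
          exact h1 j)
        have h5 : (ComplexEmbedding.conjugate (ρ j)).comp ((σ.symm : F ≃ₐ[K] F) : F →+* F) =
            ρ' := hσ
        rwa [h5] at h4
    have h6 : v = 0 := Pool.Agent.Helper17.SL.PkGA3.thm F ℂ (RingHom.id ℂ) v fun ρ' ↦ by
      rw [Phi_id]
      exact hall ρ'
    exact Subtype.ext h6
  have hfin : Module.Finite ℂ (gPart χ) := Module.Finite.of_injective L hLi
  have hle : finrank ℂ (gPart χ) ≤ d := by
    have := LinearMap.finrank_le_finrank_of_injective hLi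
    simpa using this
  -- the lower bound
  let w : Fin d → gPart χ := fun i ↦ ⟨tchi χ (u i), tchi_mem χ (u i)⟩
  have hw : LinearIndependent ℂ w := by
    have h7 : LinearIndependent ℂ (fun i ↦ L (w i)) := by
      have h8 : (fun i ↦ L (w i)) = fun i j ↦ alog (RingHom.id ℂ) χ (ρ j) (u i) := by
        funext i j
        rw [hL]
        exact extHom_tchi χ (ρ j) (u i)
      rw [h8]
      exact Matrix.linearIndependent_rows_of_det_ne_zero hu
    exact LinearIndependent.of_comp L h7
  have hge : d ≤ finrank ℂ (gPart χ) := by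
    have := hw.fintype_card_le_finrank
    simpa using this
  exact le_antisymm hle hge

end Pool.Agent.Helper25.SD.U_DIMC
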